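import Pool.Agent.Lib_MP_badb58_ins.Defs

/-!
# MP_badb58_gt: a countable compact sober T1 space whose Smyth power space is not consonant
-/

set_option autoImplicit false

namespace Pool.Agent.Lib_MP_badb58_ins

open TopologicalSpace

/-- The underlying set of the example: a countable discrete grid `d m k` and two further points
`a` and `b`. -/
inductive Pt : Type
  | a : Pt
  | b : Pt
  | d : ℕ → ℕ → Pt

/-- Open sets of the example: a set containing `a` must contain all but finitely many columns,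
a set containing `b` must contain all but finitely many points of every column. -/
def opn (U : Set Pt) : Prop :=
  (Pt.a ∈ U → ∃ n, ∀ m, n ≤ m → ∀ k, Pt.d m k ∈ U) ∧
  (Pt.b ∈ U → ∀ m, ∃ n, ∀ k, n ≤ k → Pt.d m k ∈ U)

instance topPt : TopologicalSpace Pt where
  IsOpen := opn
  isOpen_univ := ⟨fun _ => ⟨0, fun _ _ _ => trivial⟩, fun _ _ => ⟨0, fun _ _ => trivial⟩⟩
  isOpen_inter := by
    rintro U V ⟨hUa, hUb⟩ ⟨hVa, hVb⟩
    refine ⟨fun h => ?_, fun h m => ?_⟩
    · obtain ⟨n1, h1⟩ := hUa h.1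
      obtain ⟨n2, h2⟩ := hVa h.2
      exact ⟨max n1 n2, fun m hm k => ⟨h1 m (le_trans (le_max_left _ _) hm) k,
        h2 m (le_trans (le_max_right _ _) hm) k⟩⟩
    · obtain ⟨n1, h1⟩ := hUb h.1 m
      obtain ⟨n2, h2⟩ := hVb h.2 m
      exact ⟨max n1 n2, fun k hk => ⟨h1 k (le_trans (le_max_left _ _) hk),
        h2 k (le_trans (le_max_right _ _) hk)⟩⟩
  isOpen_sUnion := by
    intro S hS
    refine ⟨?_, ?_⟩
    · rintro ⟨U, hU, ha⟩
      obtain ⟨n, hn⟩ := (hS U hU).1 ha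
      exact ⟨n, fun m hm k => ⟨U, hU, hn m hm k⟩⟩
    · rintro ⟨U, hU, hb⟩ m
      obtain ⟨n, hn⟩ := (hS U hU).2 hb m
      exact ⟨n, fun k hk => ⟨U, hU, hn k hk⟩⟩

theorem isOpen_iff_opn (U : Set Pt) : IsOpen U ↔ opn U := Iff.rfl

theorem isOpen_compl_singleton' (x : Pt) : IsOpen ({x}ᶜ : Set Pt) := by
  refine ⟨fun _ => ?_, fun _ m => ?_⟩
  · cases x with
    | a => exact ⟨0, fun m _ k h => by simp at h⟩
    | b => exact ⟨0, fun m _ k h => by simp at h⟩
    | d i j =>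
      refine ⟨i + 1, fun m hm k h => ?_⟩
      simp only [Set.mem_singleton_iff, Pt.d.injEq] at h
      omega
  · cases x with
    | a => exact ⟨0, fun k _ h => by simp at h⟩
    | b => exact ⟨0, fun k _ h => by simp at h⟩
    | d i j =>
      refine ⟨j + 1, fun k hk h => ?_⟩
      simp only [Set.mem_singleton_iff, Pt.d.injEq] at h
      omega

instance : T1Space Pt := ⟨fun x => ⟨isOpen_compl_singleton' x⟩⟩

/-- Every subset of the example is saturated. -/
theorem sat (K : Set Pt) : ∀ x : Pt, (∀ U : Set Pt, IsOpen U → K ⊆ U → x ∈ U) → x ∈ K := by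
  intro x hx
  by_contra hxK
  have := hx {x}ᶜ (isOpen_compl_singleton' x) (fun y hy hyx => hxK (hyx ▸ hy))
  exact this rfl

theorem isCompact_of_finite_core {Y : Type} [TopologicalSpace Y] {K T : Set Y} (hT : T.Finite)
    (hTK : T ⊆ K) (h : ∀ V, IsOpen V → T ⊆ V → (K \ V).Finite) : IsCompact K := by
  classical
  refine isCompact_of_finite_subcover ?_
  intro ι U hU hK
  obtain ⟨t1, ht1⟩ := hT.isCompact.elim_finite_subcover U hU (hTK.trans hK)
  have hV : IsOpen (⋃ i ∈ t1, U i) := isOpen_biUnion fun i _ => hU i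
  have hfin := h _ hV ht1
  obtain ⟨t2, ht2⟩ := hfin.isCompact.elim_finite_subcover U hU (Set.sdiff_subset.trans hK)
  refine ⟨t1 ∪ t2, ?_⟩
  intro x hx
  by_cases hxV : x ∈ ⋃ i ∈ t1, U i
  · rw [Set.mem_iUnion₂] at hxV ⊢
    obtain ⟨i, hi, hxi⟩ := hxV
    exact ⟨i, Finset.mem_union_left _ hi, hxi⟩
  · have := ht2 ⟨hx, hxV⟩
    rw [Set.mem_iUnion₂] at this ⊢
    obtain ⟨i, hi, hxi⟩ := this
    exact ⟨i, Finset.mem_union_right _ hi, hxi⟩

/-- A set of grid points bounded in both coordinates is finite. -/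
theorem finite_box (n : ℕ) (f : ℕ → ℕ) (S : Set Pt)
    (hS : ∀ x ∈ S, ∃ m k, x = Pt.d m k ∧ m < n ∧ k < f m) : S.Finite := by
  classical
  refine Set.Finite.subset (Finset.finite_toSet
    (((Finset.range n).sigma fun m => Finset.range (f m)).image
      (fun p : (_ : ℕ) × ℕ => Pt.d p.1 p.2))) ?_
  intro x hx
  obtain ⟨m, k, rfl, hm, hk⟩ := hS x hx
  simp only [Finset.coe_image, Set.mem_image, Finset.mem_coe, Finset.mem_sigma, Finset.mem_range]
  exact ⟨⟨m, k⟩, ⟨hm, hk⟩, rfl⟩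

/-- Sets containing both `a` and `b` are compact as soon as they are open (indeed always). -/
theorem isCompact_of_ab {U : Set Pt} (ha : Pt.a ∈ U) (hb : Pt.b ∈ U) : IsCompact U := by
  refine isCompact_of_finite_core (T := {Pt.a, Pt.b}) (Set.toFinite _) ?_ ?_
  · rintro x (rfl | rfl) <;> assumption
  · intro V hV hT
    have haV : Pt.a ∈ V := hT (by simp)
    have hbV : Pt.b ∈ V := hT (by simp)
    obtain ⟨n, hn⟩ := hV.1 haV
    choose f hf using hV.2 hbV
    refine finite_box n f _ ?_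
    rintro x ⟨_, hxV⟩
    cases x with
    | a => exact absurd haV hxV
    | b => exact absurd hbV hxV
    | d m k =>
      refine ⟨m, k, rfl, ?_, ?_⟩
      · by_contra h
        exact hxV (hn m (not_lt.mp h) k)
      · by_contra h
        exact hxV (hf m k (not_lt.mp h))

theorem isCompact_univ_Pt : IsCompact (Set.univ : Set Pt) :=
  isCompact_of_ab (Set.mem_univ _) (Set.mem_univ _)

/-- Consonance of a space. -/
def Cns (Y : Type) (t : TopologicalSpace Y) : Prop :=
  ∀ F : Set (Set Y), (∀ U ∈ F, @IsOpen Y t U) →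
        (∀ U V : Set Y, U ∈ F → @IsOpen Y t V → U ⊆ V → V ∈ F) →
        (∀ D : Set (Set Y), D.Nonempty → (∀ U ∈ D, @IsOpen Y t U) →
            DirectedOn (· ⊆ ·) D → ⋃₀ D ∈ F → ∃ U ∈ D, U ∈ F) →
        ∀ U ∈ F, ∃ K : Set Y, @IsCompact Y t K ∧ K ⊆ U ∧
          ∀ V : Set Y, @IsOpen Y t V → K ⊆ V → V ∈ F

/-- Case 1: the open set contains `a` but not `b`. -/
theorem case_a (F : Set (Set Pt)) (_hFo : ∀ U ∈ F, IsOpen U)
    (hFup : ∀ U V : Set Pt, U ∈ F → IsOpen V → U ⊆ V → V ∈ F)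
    (hFdir : ∀ D : Set (Set Pt), D.Nonempty → (∀ U ∈ D, IsOpen U) →
            DirectedOn (· ⊆ ·) D → ⋃₀ D ∈ F → ∃ U ∈ D, U ∈ F)
    (U : Set Pt) (hUF : U ∈ F) (hU : IsOpen U) (ha : Pt.a ∈ U) (hb : Pt.b ∉ U) :
    ∃ K : Set Pt, IsCompact K ∧ K ⊆ U ∧ ∀ V : Set Pt, IsOpen V → K ⊆ V → V ∈ F := by
  classical
  -- the sets `W g n`
  let W : (ℕ → ℕ) → ℕ → Set Pt := fun g n => {x | x ∈ U ∧ ∀ m k, x = Pt.d m k → m < n → k < g m}
  have hWopen : ∀ g n, IsOpen (W g n) := by
    intro g n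
    refine ⟨fun _ => ?_, fun h => absurd h.1 hb⟩
    obtain ⟨n0, h0⟩ := hU.1 ha
    refine ⟨max n0 n, fun m hm k => ⟨h0 m (le_trans (le_max_left _ _) hm) k, ?_⟩⟩
    intro m' k' hmk hlt
    simp only [Pt.d.injEq] at hmk
    have := le_trans (le_max_right n0 n) hm
    omega
  have step : ∀ n (g : ℕ → ℕ), W g n ∈ F → ∃ j, W (Function.update g n j) (n + 1) ∈ F := by
    intro n g hg
    have := hFdir (Set.range fun j => W (Function.update g n j) (n + 1)) (Set.range_nonempty _)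
      (by rintro _ ⟨j, rfl⟩; exact hWopen _ _) ?_ ?_
    · obtain ⟨_, ⟨j, rfl⟩, h⟩ := this
      exact ⟨j, h⟩
    · rintro _ ⟨i, rfl⟩ _ ⟨j, rfl⟩
      refine ⟨_, ⟨max i j, rfl⟩, ?_, ?_⟩
      · rintro x ⟨hxU, hx⟩
        refine ⟨hxU, fun m k hxd hlt => ?_⟩
        have h1 := hx m k hxd hlt
        by_cases hmn : m = n
        · subst hmn
          simp only [Function.update_self] at h1 ⊢
          exact lt_of_lt_of_le h1 (le_max_left _ _)
        · simpa [Function.update_of_ne hmn] using h1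
      · rintro x ⟨hxU, hx⟩
        refine ⟨hxU, fun m k hxd hlt => ?_⟩
        have h1 := hx m k hxd hlt
        by_cases hmn : m = n
        · subst hmn
          simp only [Function.update_self] at h1 ⊢
          exact lt_of_lt_of_le h1 (le_max_right _ _)
        · simpa [Function.update_of_ne hmn] using h1
    · refine hFup _ _ hg (isOpen_sUnion (by rintro _ ⟨j, rfl⟩; exact hWopen _ _)) ?_
      rintro x ⟨hxU, hx⟩
      cases x with
      | a => exact ⟨_, ⟨0, rfl⟩, hxU, fun m k h => by simp at h⟩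
      | b => exact absurd hxU hb
      | d m k =>
        refine ⟨_, ⟨k + 1, rfl⟩, hxU, fun m' k' hmk hlt => ?_⟩
        simp only [Pt.d.injEq] at hmk
        obtain ⟨rfl, rfl⟩ := hmk
        by_cases hmn : m = n
        · subst hmn
          simp
        · rw [Function.update_of_ne hmn]
          exact hx m k rfl (by omega)
  -- recursive choice
  have h0 : W (fun _ => 0) 0 ∈ F := by
    refine hFup _ _ hUF (hWopen _ _) ?_
    intro x hx
    exact ⟨hx, fun m k _ h => absurd h (Nat.not_lt_zero _)⟩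
  let s : (n : ℕ) → {g : ℕ → ℕ // W g n ∈ F} := fun n =>
    Nat.rec (motive := fun n => {g : ℕ → ℕ // W g n ∈ F}) ⟨fun _ => 0, h0⟩
      (fun n g => ⟨Function.update g.1 n (Classical.choose (step n g.1 g.2)),
        Classical.choose_spec (step n g.1 g.2)⟩) n
  have hs : ∀ n m, m < n → (s (n + 1)).1 m = (s n).1 m := by
    intro n m hmn
    change Function.update (s n).1 n _ m = (s n).1 m
    exact Function.update_of_ne (by omega) _ _
  have hs' : ∀ m j, (s (m + 1 + j)).1 m = (s (m + 1)).1 m := by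
    intro m j
    induction j with
    | zero => rfl
    | succ j ih =>
      have := hs (m + 1 + j) m (by omega)
      rw [← ih, ← this]
      rfl
  let g : ℕ → ℕ := fun m => (s (m + 1)).1 m
  have hgW : ∀ n, W g n ∈ F := by
    intro n
    refine hFup _ _ (s n).2 (hWopen _ _) ?_
    rintro x ⟨hxU, hx⟩
    refine ⟨hxU, fun m k hxd hlt => ?_⟩
    have h1 := hx m k hxd hlt
    have h2 := hs' m (n - (m + 1))
    have h3 : m + 1 + (n - (m + 1)) = n := by omega
    rw [h3] at h2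
    change k < (s (m + 1)).1 m
    rw [← h2]
    exact h1
  refine ⟨{x | x ∈ U ∧ ∀ m k, x = Pt.d m k → k < g m}, ?_, fun x hx => hx.1, ?_⟩
  · refine isCompact_of_finite_core (T := {Pt.a}) (Set.toFinite _) ?_ ?_
    · rintro x rfl
      exact ⟨ha, fun m k h => by simp at h⟩
    · intro V hV hT
      have haV : Pt.a ∈ V := hT rfl
      obtain ⟨n, hn⟩ := hV.1 haV
      refine finite_box n g _ ?_
      rintro x ⟨⟨hxU, hxg⟩, hxV⟩
      cases x with
      | a => exact absurd haV hxV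
      | b => exact absurd hxU hb
      | d m k =>
        refine ⟨m, k, rfl, ?_, hxg m k rfl⟩
        by_contra h
        exact hxV (hn m (not_lt.mp h) k)
  · intro V hV hKV
    have haV : Pt.a ∈ V := hKV ⟨ha, fun m k h => by simp at h⟩
    obtain ⟨n, hn⟩ := hV.1 haV
    refine hFup _ _ (hgW n) hV ?_
    rintro x ⟨hxU, hx⟩
    cases x with
    | a => exact haV
    | b => exact absurd hxU hb
    | d m k =>
      by_cases hmn : m < n
      · refine hKV ⟨hxU, ?_⟩
        intro m' k' hmk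
        simp only [Pt.d.injEq] at hmk
        obtain ⟨rfl, rfl⟩ := hmk
        exact hx m k rfl hmn
      · exact hn m (not_lt.mp hmn) k

/-- Case 2: the open set contains `b` but not `a`. -/
theorem case_b (F : Set (Set Pt)) (_hFo : ∀ U ∈ F, IsOpen U)
    (hFup : ∀ U V : Set Pt, U ∈ F → IsOpen V → U ⊆ V → V ∈ F)
    (hFdir : ∀ D : Set (Set Pt), D.Nonempty → (∀ U ∈ D, IsOpen U) →
            DirectedOn (· ⊆ ·) D → ⋃₀ D ∈ F → ∃ U ∈ D, U ∈ F)
    (U : Set Pt) (hUF : U ∈ F) (hU : IsOpen U) (ha : Pt.a ∉ U) (hb : Pt.b ∈ U) :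
    ∃ K : Set Pt, IsCompact K ∧ K ⊆ U ∧ ∀ V : Set Pt, IsOpen V → K ⊆ V → V ∈ F := by
  classical
  by_contra hcon
  push Not at hcon
  let K : ℕ → Set Pt := fun n => {x | x ∈ U ∧ ∀ m k, x = Pt.d m k → m < n}
  have hK : ∀ n, IsCompact (K n) := by
    intro n
    refine isCompact_of_finite_core (T := {Pt.b}) (Set.toFinite _) ?_ ?_
    · rintro x rfl
      exact ⟨hb, fun m k h => by simp at h⟩
    · intro V hV hT
      have hbV : Pt.b ∈ V := hT rfl
      choose f hf using hV.2 hbV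
      refine finite_box n f _ ?_
      rintro x ⟨⟨hxU, hxn⟩, hxV⟩
      cases x with
      | a => exact absurd hxU ha
      | b => exact absurd hbV hxV
      | d m k =>
        refine ⟨m, k, rfl, hxn m k rfl, ?_⟩
        by_contra h
        exact hxV (hf m k (not_lt.mp h))
  have hKU : ∀ n, K n ⊆ U := fun n x hx => hx.1
  choose V hVo hKV hVF using fun n => hcon (K n) (hK n) (hKU n)
  let W : ℕ → Set Pt := fun n => {x | x ∈ U ∧ ∀ m, n ≤ m → x ∈ V m}
  have hWo : ∀ n, IsOpen (W n) := by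
    intro n
    refine ⟨fun h => absurd h.1 ha, fun _ j => ?_⟩
    obtain ⟨NU, hNU⟩ := hU.2 hb j
    have hbV : ∀ m, Pt.b ∈ V m := fun m => hKV m ⟨hb, fun m k h => by simp at h⟩
    choose N hN using fun m => (hVo m).2 (hbV m) j
    refine ⟨max NU ((Finset.range (j + 1)).sup N), fun k hk => ⟨?_, fun m _ => ?_⟩⟩
    · exact hNU k (le_trans (le_max_left _ _) hk)
    · by_cases hmj : m < j + 1
      · refine hN m k ?_
        refine le_trans (Finset.le_sup (f := N) (Finset.mem_range.mpr hmj)) ?_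
        exact le_trans (le_max_right _ _) hk
      · refine hKV m ⟨hNU k (le_trans (le_max_left _ _) hk), ?_⟩
        intro m' k' hmk
        simp only [Pt.d.injEq] at hmk
        omega
  have hWmono : Monotone W := fun i j hij x hx => ⟨hx.1, fun m hm => hx.2 m (le_trans hij hm)⟩
  have := hFdir (Set.range W) (Set.range_nonempty _) (by rintro _ ⟨n, rfl⟩; exact hWo n)
    (directedOn_range.mpr (hWmono.directed_le)) ?_
  · obtain ⟨_, ⟨n, rfl⟩, hn⟩ := this
    exact hVF n (hFup _ _ hn (hVo n) (fun x hx => hx.2 n le_rfl))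
  · refine hFup _ _ hUF (isOpen_sUnion (by rintro _ ⟨n, rfl⟩; exact hWo n)) ?_
    intro x hxU
    cases x with
    | a => exact absurd hxU ha
    | b => exact ⟨_, ⟨0, rfl⟩, hxU, fun m _ => hKV m ⟨hxU, fun m k h => by simp at h⟩⟩
    | d m k =>
      refine ⟨_, ⟨m + 1, rfl⟩, hxU, fun i hi => hKV i ⟨hxU, ?_⟩⟩
      intro m' k' hmk
      simp only [Pt.d.injEq] at hmk
      omega

/-- Case 3: the open set contains neither `a` nor `b`. -/
theorem case_none (F : Set (Set Pt)) (_hFo : ∀ U ∈ F, IsOpen U)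
    (hFup : ∀ U V : Set Pt, U ∈ F → IsOpen V → U ⊆ V → V ∈ F)
    (hFdir : ∀ D : Set (Set Pt), D.Nonempty → (∀ U ∈ D, IsOpen U) →
            DirectedOn (· ⊆ ·) D → ⋃₀ D ∈ F → ∃ U ∈ D, U ∈ F)
    (U : Set Pt) (hUF : U ∈ F) (ha : Pt.a ∉ U) (hb : Pt.b ∉ U) :
    ∃ K : Set Pt, IsCompact K ∧ K ⊆ U ∧ ∀ V : Set Pt, IsOpen V → K ⊆ V → V ∈ F := by
  classical
  have hop : ∀ S : Set Pt, S ⊆ U → IsOpen S := fun S hS =>
    ⟨fun h => absurd (hS h) ha, fun h => absurd (hS h) hb⟩
  have := hFdir {S | S ⊆ U ∧ S.Finite} ⟨∅, by simp, by simp⟩ (fun S hS => hop S hS.1) ?_ ?_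
  · obtain ⟨S, ⟨hSU, hSf⟩, hSF⟩ := this
    exact ⟨S, hSf.isCompact, hSU, fun V hV hSV => hFup _ _ hSF hV hSV⟩
  · rintro S ⟨hSU, hSf⟩ T ⟨hTU, hTf⟩
    exact ⟨S ∪ T, ⟨Set.union_subset hSU hTU, hSf.union hTf⟩, Set.subset_union_left,
      Set.subset_union_right⟩
  · have : ⋃₀ {S | S ⊆ U ∧ S.Finite} = U := by
      apply Set.Subset.antisymm
      · exact Set.sUnion_subset fun S hS => hS.1
      · intro x hx
        exact ⟨{x}, ⟨by simpa using hx, Set.finite_singleton x⟩, rfl⟩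
    rw [this]
    exact hUF

theorem cns_Pt : Cns Pt topPt := by
  intro F hFo hFup hFdir U hUF
  have hU := hFo U hUF
  by_cases ha : Pt.a ∈ U
  · by_cases hb : Pt.b ∈ U
    · exact ⟨U, isCompact_of_ab ha hb, subset_rfl, fun V hV hUV => hFup _ _ hUF hV hUV⟩
    · exact case_a F hFo hFup hFdir U hUF hU ha hb
  · by_cases hb : Pt.b ∈ U
    · exact case_b F hFo hFup hFdir U hUF hU ha hb
    · exact case_none F hFo hFup hFdir U hUF ha hb


/-- Every subset of the example is saturated. -/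
theorem saturated_Pt (K : Set Pt) : Saturated K := by
  refine ⟨{U | K ⊆ U}, ?_⟩
  apply Set.Subset.antisymm
  · intro x hx
    rw [Set.mem_iInter₂]
    exact fun U hU => hU hx
  · intro x hx
    rw [Set.mem_iInter₂] at hx
    exact sat K x fun U hU hKU => hx ⟨U, hU⟩ hKU

/-- Consonance in terms of sets of sets. -/
theorem cns_of_consonant {Y : Type} [t : TopologicalSpace Y] (h : Consonant Y) : Cns Y t := by
  intro F hFo hFup hFdir U hUF
  have hF : ScottOpen {V : Opens Y | (V : Set Y) ∈ F} := by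
    refine ⟨fun U V hU hUV => hFup _ _ hU V.2 hUV, fun D hD hdir hs => ?_⟩
    obtain ⟨W, ⟨V, hV, rfl⟩, hW⟩ := hFdir ((fun V : Opens Y => (V : Set Y)) '' D) (hD.image _)
      (by rintro _ ⟨V, _, rfl⟩; exact V.2)
      (by
        rintro _ ⟨V1, h1, rfl⟩ _ ⟨V2, h2, rfl⟩
        obtain ⟨V3, h3, h4, h5⟩ := hdir V1 h1 V2 h2
        exact ⟨_, ⟨V3, h3, rfl⟩, h4, h5⟩)
      (by
        have h1 : ((sSup D : Opens Y) : Set Y) ∈ F := hs
        rw [Opens.coe_sSup] at h1
        rw [Set.sUnion_image]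
        exact h1)
    exact ⟨V, hV, hW⟩
  obtain ⟨S, hS, hFS⟩ := h _ hF
  have h1 : (⟨U, hFo U hUF⟩ : Opens Y) ∈ {V : Opens Y | (V : Set Y) ∈ F} := hUF
  rw [hFS, Set.mem_iUnion₂] at h1
  obtain ⟨K, hK, hKU⟩ := h1
  refine ⟨K, (hS K hK).1, hKU, fun V hV hKV => ?_⟩
  have h2 : (⟨V, hV⟩ : Opens Y) ∈ {V : Opens Y | (V : Set Y) ∈ F} := by
    rw [hFS, Set.mem_iUnion₂]
    exact ⟨K, hK, hKV⟩
  exact h2

theorem consonant_of_cns {Y : Type} [t : TopologicalSpace Y] (hsat : ∀ K : Set Y, Saturated K)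
    (h : Cns Y t) : Consonant Y := by
  intro F hF
  refine ⟨{K | IsCompact K ∧ Phi K ⊆ F}, fun K hK => ⟨hK.1, hsat K⟩, ?_⟩
  apply Set.Subset.antisymm
  · intro U hU
    obtain ⟨K, hK1, hK2, hK3⟩ := h {V | ∃ hV : IsOpen V, (⟨V, hV⟩ : Opens Y) ∈ F}
      (fun V hV => hV.1) (by
        rintro V W ⟨hV, hVF⟩ hW hVW
        exact ⟨hW, hF.upper _ _ hVF hVW⟩)
      (by
        intro D hD hDo hdir hs
        obtain ⟨V, hV, hVF⟩ := hF.directed {V : Opens Y | (V : Set Y) ∈ D}
          (by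
            obtain ⟨W, hW⟩ := hD
            exact ⟨⟨W, hDo W hW⟩, hW⟩)
          (by
            intro V1 h1 V2 h2
            obtain ⟨W, hW, h3, h4⟩ := hdir _ h1 _ h2
            exact ⟨⟨W, hDo W hW⟩, hW, h3, h4⟩)
          (by
            obtain ⟨h1, h2⟩ := hs
            have h3 : (⟨⋃₀ D, h1⟩ : Opens Y) = sSup {V : Opens Y | (V : Set Y) ∈ D} := by
              apply Opens.ext
              rw [Opens.coe_sSup]
              apply Set.Subset.antisymm
              · rintro x ⟨W, hW, hx⟩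
                rw [Set.mem_iUnion₂]
                exact ⟨⟨W, hDo W hW⟩, hW, hx⟩
              · intro x hx
                rw [Set.mem_iUnion₂] at hx
                obtain ⟨W, hW, hx⟩ := hx
                exact ⟨W, hW, hx⟩
            rw [← h3]
            exact h2)
        exact ⟨V, hV, V.2, hVF⟩)
      U ⟨U.2, hU⟩
    rw [Set.mem_iUnion₂]
    exact ⟨K, ⟨hK1, fun V hV => (hK3 V V.2 hV).2⟩, hK2⟩
  · intro U hU
    rw [Set.mem_iUnion₂] at hU
    obtain ⟨K, hK, hKU⟩ := hU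
    exact hK.2 hKU

/-- The example is consonant. -/
theorem consonant_Pt : Consonant Pt := consonant_of_cns saturated_Pt cns_Pt

/-- The points of the Smyth power space of the example. -/
abbrev PS : Type := Smyth Pt

/-- The upper Vietoris topology. -/
@[reducible] def tPS : TopologicalSpace PS := smythTopology Pt

/-- The basic open sets of the upper Vietoris topology. -/
def bx (U : Set Pt) : Set PS := {K | K.1 ⊆ U}

theorem isOpen_bx {U : Set Pt} (hU : IsOpen U) : @IsOpen PS tPS (bx U) :=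
  fun K hK => ⟨⟨U, hU⟩, hK, fun _ hL => hL⟩

theorem exists_bx {W : Set PS} (hW : @IsOpen PS tPS W) :
    ∀ K ∈ W, ∃ U : Set Pt, IsOpen U ∧ K ∈ bx U ∧ bx U ⊆ W := by
  intro K hK
  obtain ⟨U, h1, h2⟩ := hW K hK
  exact ⟨U, U.2, h1, h2⟩

/-- The Scott open family of open sets of the power space that is not compactly generated. -/
def fam : Set (Set PS) :=
  {W | @IsOpen PS tPS W ∧ ∃ V₁ V₂ : Set Pt, IsOpen V₁ ∧ IsOpen V₂ ∧ Pt.a ∈ V₁ ∧ Pt.b ∈ V₂ ∧
    V₁ ∪ V₂ = Set.univ ∧ bx V₁ ⊆ W ∧ bx V₂ ⊆ W}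

theorem fam_dir (D : Set (Set PS)) (_hDn : D.Nonempty) (hDo : ∀ U ∈ D, @IsOpen PS tPS U)
    (hD : DirectedOn (· ⊆ ·) D) (hDf : ⋃₀ D ∈ fam) : ∃ U ∈ D, U ∈ fam := by
  obtain ⟨_, V₁, V₂, hV₁, hV₂, ha, hb, hun, hb1, hb2⟩ := hDf
  -- first step
  have hK1c : IsCompact (insert Pt.a V₂ᶜ) :=
    (isCompact_univ_Pt.of_isClosed_subset hV₂.isClosed_compl (Set.subset_univ _)).insert _
  have hK1 : (⟨insert Pt.a V₂ᶜ, Set.insert_nonempty _ _, hK1c, saturated_Pt _⟩ : PS) ∈ bx V₁ := by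
    rintro x (rfl | hx)
    · exact ha
    · have : x ∈ V₁ ∪ V₂ := hun ▸ Set.mem_univ x
      exact this.resolve_right hx
  obtain ⟨S, hSD, hS⟩ := hb1 hK1
  obtain ⟨V₁', hV₁', hKV, hVS⟩ := exists_bx (hDo S hSD) _ hS
  have ha' : Pt.a ∈ V₁' := hKV (Set.mem_insert _ _)
  have hun' : V₁' ∪ V₂ = Set.univ := by
    refine Set.eq_univ_of_forall fun x => ?_
    by_cases hx : x ∈ V₂
    · exact Or.inr hx
    · exact Or.inl (hKV (Set.mem_insert_of_mem _ hx))
  -- second step
  have hK2c : IsCompact (insert Pt.b V₁'ᶜ) :=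
    (isCompact_univ_Pt.of_isClosed_subset hV₁'.isClosed_compl (Set.subset_univ _)).insert _
  have hK2 : (⟨insert Pt.b V₁'ᶜ, Set.insert_nonempty _ _, hK2c, saturated_Pt _⟩ : PS) ∈ bx V₂ := by
    rintro x (rfl | hx)
    · exact hb
    · have : x ∈ V₁' ∪ V₂ := hun' ▸ Set.mem_univ x
      exact this.resolve_left hx
  obtain ⟨T, hTD, hT⟩ := hb2 hK2
  obtain ⟨V₂', hV₂', hKV2, hVT⟩ := exists_bx (hDo T hTD) _ hT
  have hb' : Pt.b ∈ V₂' := hKV2 (Set.mem_insert _ _)
  have hun'' : V₁' ∪ V₂' = Set.univ := by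
    refine Set.eq_univ_of_forall fun x => ?_
    by_cases hx : x ∈ V₁'
    · exact Or.inl hx
    · exact Or.inr (hKV2 (Set.mem_insert_of_mem _ hx))
  obtain ⟨R, hRD, hSR, hTR⟩ := hD S hSD T hTD
  exact ⟨R, hRD, hDo R hRD, V₁', V₂', hV₁', hV₂', ha', hb', hun'', hVS.trans hSR, hVT.trans hTR⟩

theorem not_cns_PS : ¬ Cns PS tPS := by
  classical
  intro h
  have hU1 : IsOpen ({Pt.b}ᶜ : Set Pt) := isOpen_compl_singleton' _
  have hU2 : IsOpen ({Pt.a}ᶜ : Set Pt) := isOpen_compl_singleton' _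
  have hmem : (bx {Pt.b}ᶜ ∪ bx {Pt.a}ᶜ) ∈ fam := by
    refine ⟨@IsOpen.union _ _ _ tPS (isOpen_bx hU1) (isOpen_bx hU2), {Pt.b}ᶜ, {Pt.a}ᶜ, hU1, hU2,
      by simp, by simp, ?_, Set.subset_union_left, Set.subset_union_right⟩
    refine Set.eq_univ_of_forall fun x => ?_
    cases x with
    | a => left; simp
    | b => right; simp
    | d m k => left; simp
  obtain ⟨KK, hKc, hKsub, hKfam⟩ := h fam (fun U hU => hU.1)
    (by
      rintro U V ⟨_, V₁, V₂, h1, h2, h3, h4, h5, h6, h7⟩ hV hUV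
      exact ⟨hV, V₁, V₂, h1, h2, h3, h4, h5, h6.trans hUV, h7.trans hUV⟩)
    fam_dir _ hmem
  -- the members of `KK` containing `a`
  have hK1 : @IsCompact PS tPS (KK \ bx {Pt.a}ᶜ) :=
    @IsCompact.diff PS tPS _ _ hKc (isOpen_bx hU2)
  have hK2 : @IsCompact PS tPS (KK \ bx {Pt.b}ᶜ) :=
    @IsCompact.diff PS tPS _ _ hKc (isOpen_bx hU1)
  -- finite traces on the columns
  let H : ℕ → ℕ → Set Pt := fun j r => {x | x ≠ Pt.b ∧ ∀ k, x = Pt.d j k → k < r}
  have hHo : ∀ j r, IsOpen (H j r) := by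
    intro j r
    refine ⟨fun _ => ⟨j + 1, fun m hm k => ⟨by simp, fun k' hk' => ?_⟩⟩, fun h => absurd rfl h.1⟩
    simp only [Pt.d.injEq] at hk'
    omega
  have hHmono : ∀ j, Monotone (H j) := fun j r s hrs x hx =>
    ⟨hx.1, fun k hk => lt_of_lt_of_le (hx.2 k hk) hrs⟩
  have hr : ∀ j, ∃ r, (KK \ bx {Pt.a}ᶜ) ⊆ bx (H j r) := by
    intro j
    refine @IsCompact.elim_directed_cover PS tPS _ ℕ _ hK1 (fun r => bx (H j r))
      (fun r => isOpen_bx (hHo j r)) ?_ ?_
    · rintro K ⟨hK, hKa⟩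
      have hKb : K.1 ⊆ {Pt.b}ᶜ := (hKsub hK).resolve_right hKa
      have hcov : K.1 ⊆ ⋃ r, H j r := by
        intro x hx
        have hxb : x ≠ Pt.b := hKb hx
        cases x with
        | a => exact Set.mem_iUnion.mpr ⟨0, hxb, fun k h => by simp at h⟩
        | b => exact absurd rfl hxb
        | d m k =>
          refine Set.mem_iUnion.mpr ⟨k + 1, hxb, fun k' h => ?_⟩
          simp only [Pt.d.injEq] at h
          omega
      obtain ⟨r, hr⟩ := K.2.2.1.elim_directed_cover (H j) (hHo j) hcov (hHmono j).directed_le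
      exact Set.mem_iUnion.mpr ⟨r, hr⟩
    · exact Monotone.directed_le fun r s hrs K hK => hK.trans (hHmono j hrs)
  choose r hr using hr
  let G : ℕ → Set Pt := fun j => {x | x ≠ Pt.a ∧ ∀ m, x = Pt.d m (r m) → m < j}
  have hGo : ∀ j, IsOpen (G j) := by
    intro j
    refine ⟨fun h => absurd rfl h.1, fun _ m => ⟨r m + 1, fun k hk => ⟨by simp, fun m' h => ?_⟩⟩⟩
    simp only [Pt.d.injEq] at h
    obtain ⟨rfl, rfl⟩ := h
    omega
  have hGmono : Monotone G := fun i j hij x hx =>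
    ⟨hx.1, fun m hm => lt_of_lt_of_le (hx.2 m hm) hij⟩
  obtain ⟨j, hj⟩ : ∃ j, (KK \ bx {Pt.b}ᶜ) ⊆ bx (G j) := by
    refine @IsCompact.elim_directed_cover PS tPS _ ℕ _ hK2 (fun j => bx (G j))
      (fun j => isOpen_bx (hGo j)) ?_ ?_
    · rintro K ⟨hK, hKb⟩
      have hKa : K.1 ⊆ {Pt.a}ᶜ := (hKsub hK).resolve_left hKb
      have hcov : K.1 ⊆ ⋃ j, G j := by
        intro x hx
        have hxa : x ≠ Pt.a := hKa hx
        cases x with
        | a => exact absurd rfl hxa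
        | b => exact Set.mem_iUnion.mpr ⟨0, hxa, fun k h => by simp at h⟩
        | d m k =>
          refine Set.mem_iUnion.mpr ⟨m + 1, hxa, fun m' h => ?_⟩
          simp only [Pt.d.injEq] at h
          omega
      obtain ⟨j, hj⟩ := K.2.2.1.elim_directed_cover G hGo hcov hGmono.directed_le
      exact Set.mem_iUnion.mpr ⟨j, hj⟩
    · exact Monotone.directed_le fun i j hij K hK => hK.trans (hGmono hij)
  -- the point that escapes
  set p : Pt := Pt.d j (r j) with hp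
  have hV1o : IsOpen ({Pt.b}ᶜ ∩ {p}ᶜ : Set Pt) := hU1.inter (isOpen_compl_singleton' _)
  have hV2o : IsOpen ({Pt.a}ᶜ ∩ {p}ᶜ : Set Pt) := hU2.inter (isOpen_compl_singleton' _)
  have hDo : IsOpen ({Pt.a}ᶜ ∩ {Pt.b}ᶜ : Set Pt) := hU2.inter hU1
  have hcov := hKfam (bx ({Pt.b}ᶜ ∩ {p}ᶜ) ∪ bx ({Pt.a}ᶜ ∩ {p}ᶜ) ∪ bx ({Pt.a}ᶜ ∩ {Pt.b}ᶜ))
    (@IsOpen.union _ _ _ tPS (@IsOpen.union _ _ _ tPS (isOpen_bx hV1o) (isOpen_bx hV2o))
      (isOpen_bx hDo)) ?_
  · obtain ⟨_, W₁, W₂, _, _, haW, hbW, hW, hs1, hs2⟩ := hcov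
    have hpW : p ∈ W₁ ∪ W₂ := hW ▸ Set.mem_univ p
    rcases hpW with hpW | hpW
    · have hmem : (⟨{Pt.a, p}, Set.insert_nonempty _ _, (Set.toFinite _).isCompact, saturated_Pt _⟩ : PS) ∈
          bx W₁ := by
        rintro x (rfl | rfl) <;> assumption
      rcases hs1 hmem with (h1 | h1) | h1
      · exact (h1 (Set.mem_insert_of_mem _ rfl)).2 rfl
      · exact (h1 (Set.mem_insert _ _)).1 rfl
      · exact (h1 (Set.mem_insert _ _)).1 rfl
    · have hmem : (⟨{Pt.b, p}, Set.insert_nonempty _ _, (Set.toFinite _).isCompact, saturated_Pt _⟩ : PS) ∈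
          bx W₂ := by
        rintro x (rfl | rfl) <;> assumption
      rcases hs2 hmem with (h1 | h1) | h1
      · exact (h1 (Set.mem_insert _ _)).1 rfl
      · exact (h1 (Set.mem_insert_of_mem _ rfl)).2 rfl
      · exact (h1 (Set.mem_insert _ _)).2 rfl
  · intro K hK
    by_cases hKa : K ∈ bx {Pt.a}ᶜ
    · by_cases hKb : K ∈ bx {Pt.b}ᶜ
      · exact Or.inr fun x hx => ⟨hKa hx, hKb hx⟩
      · refine Or.inl (Or.inr fun x hx => ⟨hKa hx, fun hxp => ?_⟩)
        have h1 : x ∈ G j := hj ⟨hK, hKb⟩ hx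
        exact lt_irrefl _ (h1.2 j hxp)
    · refine Or.inl (Or.inl fun x hx => ⟨?_, fun hxp => ?_⟩)
      · exact (hr j ⟨hK, hKa⟩ hx).1
      · have h1 : x ∈ H j (r j) := hr j ⟨hK, hKa⟩ hx
        exact lt_irrefl _ (h1.2 (r j) hxp)


/-- The Smyth power space of the example is not consonant. -/
theorem not_consonant_Smyth : ¬ Consonant (Smyth Pt) := fun h => not_cns_PS (cns_of_consonant h)

theorem isOpen_singleton_d (m k : ℕ) : IsOpen ({Pt.d m k} : Set Pt) :=
  ⟨fun h => by simp at h, fun h => by simp at h⟩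

theorem countable_Pt : Countable Pt := by
  have h : Function.Surjective (fun o : Option (Option (ℕ × ℕ)) =>
      match o with
      | none => Pt.a
      | some none => Pt.b
      | some (some p) => Pt.d p.1 p.2) := by
    intro x
    cases x with
    | a => exact ⟨none, rfl⟩
    | b => exact ⟨some none, rfl⟩
    | d m k => exact ⟨some (some (m, k)), rfl⟩
  exact h.countable

theorem compactSpace_Pt : CompactSpace Pt := ⟨isCompact_univ_Pt⟩

theorem sober_Pt : QuasiSober Pt := by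
  refine ⟨fun {S} hS hSc => ?_⟩
  have key : ∀ x ∈ S, S ⊆ {x} → ∃ y, IsGenericPoint y S := by
    intro x hx hSx
    refine ⟨x, ?_⟩
    have h1 : S = {x} := Set.Subset.antisymm hSx (Set.singleton_subset_iff.2 hx)
    rw [isGenericPoint_def, closure_singleton, h1]
  by_cases hd : ∃ m k, Pt.d m k ∈ S
  · obtain ⟨m, k, hmk⟩ := hd
    refine key _ hmk fun y hy => ?_
    by_contra hne
    obtain ⟨z, -, h1, h2⟩ := hS.2 {Pt.d m k} {Pt.d m k}ᶜ (isOpen_singleton_d m k)
      (isOpen_compl_singleton' _) ⟨_, hmk, rfl⟩ ⟨y, hy, hne⟩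
    exact h2 h1
  · push Not at hd
    by_cases ha : Pt.a ∈ S
    · refine key _ ha fun y hy => ?_
      by_contra hne
      obtain ⟨z, hz, h1, h2⟩ := hS.2 {Pt.b}ᶜ {Pt.a}ᶜ (isOpen_compl_singleton' _)
        (isOpen_compl_singleton' _) ⟨_, ha, by simp⟩ ⟨y, hy, hne⟩
      cases z with
      | a => exact h2 rfl
      | b => exact h1 rfl
      | d m k => exact hd m k hz
    · obtain ⟨x, hx⟩ := hS.1
      refine key x hx fun y hy => ?_
      cases x with
      | a => exact absurd hx ha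
      | d m k => exact absurd hx (hd m k)
      | b =>
        cases y with
        | a => exact absurd hy ha
        | d m k => exact absurd hy (hd m k)
        | b => rfl

theorem t2_aux (p : Pt) (hp : ∀ x y : Pt, x ≠ y → x ≠ p → y ≠ p → ∃ m k, x = Pt.d m k ∨ y = Pt.d m k) :
    T2Space ({p}ᶜ : Set Pt) := by
  refine ⟨fun x y hxy => ?_⟩
  obtain ⟨m, k, h⟩ := hp x.1 y.1 (fun h => hxy (Subtype.ext h)) x.2 y.2
  rcases h with h | h
  · refine ⟨Subtype.val ⁻¹' {Pt.d m k}, Subtype.val ⁻¹' {Pt.d m k}ᶜ,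
      (isOpen_singleton_d m k).preimage continuous_subtype_val,
      (isOpen_compl_singleton' _).preimage continuous_subtype_val, h, ?_, ?_⟩
    · intro h2
      exact hxy (Subtype.ext (h.trans (h2 : y.1 = _).symm))
    · rw [Set.disjoint_left]
      exact fun z h1 h2 => h2 h1
  · refine ⟨Subtype.val ⁻¹' {Pt.d m k}ᶜ, Subtype.val ⁻¹' {Pt.d m k},
      (isOpen_compl_singleton' _).preimage continuous_subtype_val,
      (isOpen_singleton_d m k).preimage continuous_subtype_val, ?_, h, ?_⟩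
    · intro h2
      exact hxy (Subtype.ext ((h2 : x.1 = _).trans h.symm))
    · rw [Set.disjoint_left]
      exact fun z h1 h2 => h1 h2

theorem t2_a : T2Space ({Pt.a}ᶜ : Set Pt) := by
  refine t2_aux _ fun x y hxy hx hy => ?_
  cases x with
  | a => exact absurd rfl hx
  | d m k => exact ⟨m, k, Or.inl rfl⟩
  | b =>
    cases y with
    | a => exact absurd rfl hy
    | b => exact absurd rfl hxy
    | d m k => exact ⟨m, k, Or.inr rfl⟩

theorem t2_b : T2Space ({Pt.b}ᶜ : Set Pt) := by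
  refine t2_aux _ fun x y hxy hx hy => ?_
  cases x with
  | b => exact absurd rfl hx
  | d m k => exact ⟨m, k, Or.inl rfl⟩
  | a =>
    cases y with
    | b => exact absurd rfl hy
    | a => exact absurd rfl hxy
    | d m k => exact ⟨m, k, Or.inr rfl⟩

theorem nhds_countable (x : Pt) (hx : x ≠ Pt.b) : (nhds x).IsCountablyGenerated := by
  cases x with
  | b => exact absurd rfl hx
  | d m k =>
    rw [(isOpen_singleton_iff_nhds_eq_pure _).1 (isOpen_singleton_d m k)]
    exact Filter.isCountablyGenerated_pure _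
  | a =>
    have hb : (nhds Pt.a).HasBasis (fun _ : ℕ => True)
        (fun n => {x | x = Pt.a ∨ ∃ m k, n ≤ m ∧ x = Pt.d m k}) := by
      constructor
      intro S
      rw [mem_nhds_iff]
      constructor
      · rintro ⟨U, hUS, hU, ha⟩
        obtain ⟨n, hn⟩ := hU.1 ha
        refine ⟨n, trivial, ?_⟩
        rintro x (rfl | ⟨m, k, hm, rfl⟩)
        · exact hUS ha
        · exact hUS (hn m hm k)
      · rintro ⟨n, -, hS⟩
        refine ⟨_, hS, ⟨fun _ => ⟨n, fun m hm k => Or.inr ⟨m, k, hm, rfl⟩⟩, fun h => ?_⟩, Or.inl rfl⟩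
        rcases h with h | ⟨m, k, -, h⟩
        · exact absurd h (by simp)
        · exact absurd h (by simp)
    exact hb.isCountablyGenerated

end Pool.Agent.Lib_MP_badb58_ins
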