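import Mathlib

/-!
# MP_badb58_gt: consonance and the Smyth power space, definitions
-/

set_option autoImplicit false

namespace Pool.Agent.Lib_MP_badb58_ins

open TopologicalSpace

variable {X : Type*} [TopologicalSpace X]

/-- A Scott open family of open sets of `X`: an upper set of the lattice `Opens X`, and whenever the
union of a directed family of open sets belongs to `F`, some member of the family belongs to `F`. -/
structure ScottOpen (F : Set (Opens X)) : Prop where
  upper : ∀ U V : Opens X, U ∈ F → U ≤ V → V ∈ F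
  directed : ∀ D : Set (Opens X), D.Nonempty → DirectedOn (· ≤ ·) D → sSup D ∈ F → ∃ U ∈ D, U ∈ F

/-- A saturated set: an intersection of open sets. -/
def Saturated (K : Set X) : Prop := ∃ S : Set (Opens X), K = ⋂ U ∈ S, (U : Set X)

/-- `Φ(K)`, the family of the open sets which contain `K`. -/
def Phi (K : Set X) : Set (Opens X) := {U | K ⊆ U}

/-- `X` is consonant: every Scott open family is a union of families `Φ(K)`, `K` compact saturated. -/
def Consonant (X : Type*) [TopologicalSpace X] : Prop :=
  ∀ F : Set (Opens X), ScottOpen F →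
    ∃ S : Set (Set X), (∀ K ∈ S, IsCompact K ∧ Saturated K) ∧ F = ⋃ K ∈ S, Phi K

/-- The points of the Smyth power space: the nonempty compact saturated subsets of `X`. -/
def Smyth (X : Type*) [TopologicalSpace X] : Type _ :=
  {K : Set X // K.Nonempty ∧ IsCompact K ∧ Saturated K}

/-- The basic open set of all `K ⊆ U`. -/
def box (U : Opens X) : Set (Smyth X) := {K | K.1 ⊆ U}

/-- The upper Vietoris topology: the topology with base the sets `box U`. -/
instance smythTopology (X : Type*) [TopologicalSpace X] : TopologicalSpace (Smyth X) where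
  IsOpen W := ∀ K ∈ W, ∃ U : Opens X, K ∈ box U ∧ box U ⊆ W
  isOpen_univ := fun _ _ => ⟨⊤, fun _ _ => trivial, fun _ _ => trivial⟩
  isOpen_inter := by
    rintro W V hW hV K ⟨hKW, hKV⟩
    obtain ⟨U1, h1, h2⟩ := hW K hKW
    obtain ⟨U2, h3, h4⟩ := hV K hKV
    exact ⟨U1 ⊓ U2, fun x hx => ⟨h1 hx, h3 hx⟩, fun L hL =>
      ⟨h2 fun x hx => (hL hx).1, h4 fun x hx => (hL hx).2⟩⟩
  isOpen_sUnion := by
    rintro S hS K ⟨W, hW, hK⟩
    obtain ⟨U, h1, h2⟩ := hS W hW K hK
    exact ⟨U, h1, fun L hL => ⟨W, hW, h2 hL⟩⟩

end Pool.Agent.Lib_MP_badb58_ins
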